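import Pool.Agent.W46.HD.Stm

/-!
# The step, the iteration to `1.6752` and the dense counting theorem
-/

set_option autoImplicit false

open Finset
open scoped Classical

namespace Pool.Agent.W976.HD
open Pool.Agent.W904.AK Pool.Agent.W46.HD

/-- Two points: the entropy of the pair given the heights is at most `2 h`. -/
lemma pair_le {Θ : Type} [Fintype Θ] {q : Θ → ℝ} (hq : IsLaw q) {α β γ δ ε : Type}
    (s : Θ → α) (t : Θ → β) (t' : Θ → γ) (c : Θ → δ) (c' : Θ → ε) :
    H q (fun z => (s z, t z, t' z, c z, c' z)) - H q (fun z => (s z, t z, t' z)) ≤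
      (H q (fun z => (t z, c z)) - H q t) + (H q (fun z => (t' z, c' z)) - H q t') := by
  have h1 := submod' hq (f := fun z => (s z, t z, t' z, c z)) (g := fun z => (t' z, c' z))
    (h := t') (k := fun z => (s z, t z, t' z, c z, c' z))
    (fun x y _ _ h => by simp only [Prod.mk.injEq] at h; exact h.2.2.1)
    (fun x y _ _ h => by simp only [Prod.mk.injEq] at h; exact h.1)
    (fun x y _ _ h => by
      simp only [Prod.mk.injEq] at h ⊢
      exact ⟨h.1.1, h.1.2.1, h.1.2.2.1, h.1.2.2.2, h.2.2⟩)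
  have h2 := submod' hq (f := fun z => (s z, t z, t' z)) (g := fun z => (t z, c z))
    (h := t) (k := fun z => (s z, t z, t' z, c z))
    (fun x y _ _ h => by simp only [Prod.mk.injEq] at h; exact h.2.1)
    (fun x y _ _ h => by simp only [Prod.mk.injEq] at h; exact h.1)
    (fun x y _ _ h => by
      simp only [Prod.mk.injEq] at h ⊢
      exact ⟨h.1.1, h.1.2.1, h.1.2.2, h.2.2⟩)
  linarith

/-- The arithmetic of the step. -/
lemma step_arith {a h P φ b E1 E2 : ℝ} (hb : 1 < b) (hP : P ≤ 2 * h)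
    (hUP : 2 * a - h + (b - 1) * φ ≤ b * P + E1)
    (hKT : 3 * a - 2 * h + (b - 1) * (a + P - 2 * h) ≤ b * (h + φ) + E2) :
    a ≤ (3 * b ^ 2 + 2 * b - 2) / (b ^ 2 + 3 * b - 2) * h +
      (b * E1 + (b - 1) * E2) / (b ^ 2 + 3 * b - 2) := by
  have hD : 0 < b ^ 2 + 3 * b - 2 := by nlinarith
  have e1 := mul_le_mul_of_nonneg_left hUP (by linarith : (0 : ℝ) ≤ b)
  have e2 := mul_le_mul_of_nonneg_left hKT (by linarith : (0 : ℝ) ≤ b - 1)
  have e3 := mul_le_mul_of_nonneg_left hP (by linarith : (0 : ℝ) ≤ 2 * b - 1)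
  have e4 : (b ^ 2 + 3 * b - 2) * a ≤ (3 * b ^ 2 + 2 * b - 2) * h + (b * E1 + (b - 1) * E2) := by
    nlinarith
  rw [div_mul_eq_mul_div, ← add_div, le_div_iff₀ hD]
  linarith

theorem STEP (hUP : S_UP) (hKT : S_KT) (hCFG : S_CFG) (hPSI : S_PSI) : S_STEP := by
  intro d b C hb hC
  obtain ⟨C1, hC1, h1⟩ := hUP d b C hb hC
  obtain ⟨C2, hC2, h2⟩ := hKT d b C hb hC
  have hD : 0 < b ^ 2 + 3 * b - 2 := by nlinarith
  refine ⟨(b * C1 + (b - 1) * C2) / (b ^ 2 + 3 * b - 2), ?_, ?_⟩
  · have : 0 ≤ (b - 1) * C2 := mul_nonneg (by linarith) hC2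
    have : 0 ≤ b * C1 := mul_nonneg (by linarith) hC1
    positivity
  intro n Ω _ A D hF hO p hp
  have hl := (hPSI Ω n p hF.pos hp).1
  obtain ⟨Θ, _, q, l1, l2, l3, s0, s1, t, t', τ, v, hc⟩ := hCFG Ω d n A D p hF.pos hp
  have k1 := h1 n Ω A D hF hO p hp hl Θ q l1 l2 l3 s0 s1 t t' τ v hc
  have k2 := h2 n Ω A D hF hO p hp hl Θ q l1 l2 l3 s0 s1 t t' τ v hc
  rw [hc.pp] at k2
  have k3 := pair_le hc.law s0 t t' (fun z => cell A D (t z) (l1 z))
    (fun z => cell A D (t' z) (l3 z))
  have k4 : H q (fun z => (s0 z, t z, t' z, cell A D (t z) (l1 z), cell A D (t' z) (l3 z))) -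
      H q (fun z => (s0 z, t z, t' z)) ≤ 2 * hh A D p := by
    have e1 := hc.ht
    have e2 := hc.ht'
    linarith
  have k5 := step_arith hb k4 k1 k2
  refine k5.trans (le_of_eq ?_)
  have : (b * (C1 * (1 + lam p)) + (b - 1) * (C2 * (1 + lam p))) / (b ^ 2 + 3 * b - 2) =
      (b * C1 + (b - 1) * C2) / (b ^ 2 + 3 * b - 2) * (1 + lam p) := by ring
  rw [this]

section Mono

variable {Ω : Type} [Fintype Ω] {d n : ℕ}

lemma hh_nonneg (A D : Ω → Fin d → ℝ) {p : Ω × Fin n → ℝ} (hp : IsLaw p) : 0 ≤ hh A D p := by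
  unfold hh
  have := H_mono hp (f := fun z => (z.2, cell A D z.2 z.1)) (g := Prod.snd)
    (fun x y _ _ h => by simp only [Prod.mk.injEq] at h; exact h.1)
  linarith

lemma orc_mono {A D : Ω → Fin d → ℝ} {b b' C : ℝ} (hb : b ≤ b') (h : Orc n A D b C) :
    Orc n A D b' C := by
  intro p hp
  have h1 := h p hp
  have h2 := mul_le_mul_of_nonneg_right hb (hh_nonneg A D hp)
  linarith

end Mono

/-- The oracle holds for all families in dimension `d`, with exponent `b`. -/
def All (d : ℕ) (b : ℝ) : Prop := ∃ C : ℝ, 0 ≤ C ∧ ∀ (n : ℕ) (Ω : Type) [Fintype Ω]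
    (A D : Ω → Fin d → ℝ), IsFam n D → Orc n A D b C

lemma all_step (hS : S_STEP) {d : ℕ} {b b' : ℝ} (hb : 1 < b)
    (hle : (3 * b ^ 2 + 2 * b - 2) / (b ^ 2 + 3 * b - 2) ≤ b') (h : All d b) : All d b' := by
  obtain ⟨C, hC, h⟩ := h
  obtain ⟨C', hC', h'⟩ := hS d b C hb hC
  refine ⟨C', hC', ?_⟩
  intro n Ω _ A D hF
  exact orc_mono hle (h' n Ω A D hF (h n Ω A D hF))

theorem orc_final (hB : Pool.Agent.W46.HD.S_BASE) (hS : S_STEP) : ∀ d : ℕ, ∃ C : ℝ, 0 ≤ C ∧
    ∀ (n : ℕ) (Ω : Type) [Fintype Ω] (A D : Ω → Fin d → ℝ), IsFam n D →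
      Orc n A D (16752 / 10000) C := by
  intro d
  have h0 : All d 2 := hB d
  have h1 : All d (7 / 4) := all_step hS (by norm_num) (by norm_num) h0
  have h2 : All d (16931 / 10000) := all_step hS (by norm_num) (by norm_num) h1
  have h3 : All d (16795 / 10000) := all_step hS (by norm_num) (by norm_num) h2
  have h4 : All d (16762 / 10000) := all_step hS (by norm_num) (by norm_num) h3
  have h5 : All d (16754 / 10000) := all_step hS (by norm_num) (by norm_num) h4
  have h6 : All d (16752 / 10000) := all_step hS (by norm_num) (by norm_num) h5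
  exact h6

section Dense

variable {Ω : Type} [Fintype Ω] {n : ℕ}

/-- Uniform line, then uniform height in its set of heights. -/
noncomputable def pe (E : Ω → Finset (Fin n)) (z : Ω × Fin n) : ℝ :=
  if z.2 ∈ E z.1 then 1 / ((Fintype.card Ω : ℝ) * ((E z.1).card : ℝ)) else 0

lemma pe_sum [Nonempty Ω] (E : Ω → Finset (Fin n)) (hE : ∀ ω, 0 < (E ω).card) (w : Ω) :
    ∑ j, pe E (w, j) = 1 / (Fintype.card Ω : ℝ) := by
  unfold pe
  dsimp only
  rw [Finset.sum_ite_mem, Finset.univ_inter, Finset.sum_const, nsmul_eq_mul]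
  have h1 : (0 : ℝ) < (E w).card := by exact_mod_cast hE w
  have h2 : (0 : ℝ) < Fintype.card Ω := by exact_mod_cast Fintype.card_pos
  field_simp

lemma pe_law [Nonempty Ω] (E : Ω → Finset (Fin n)) (hE : ∀ ω, 0 < (E ω).card) :
    IsLaw (pe E) := by
  constructor
  · intro z
    unfold pe
    split_ifs
    · positivity
    · exact le_rfl
  · rw [Fintype.sum_prod_type, Finset.sum_congr rfl fun w _ => pe_sum E hE w, Finset.sum_const,
      nsmul_eq_mul, Finset.card_univ]
    have h2 : (0 : ℝ) < Fintype.card Ω := by exact_mod_cast Fintype.card_pos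
    field_simp

lemma pe_supp {E : Ω → Finset (Fin n)} {z : Ω × Fin n} (hz : pe E z ≠ 0) :
    z.2 ∈ E z.1 := by
  by_contra h
  exact hz (by unfold pe; rw [if_neg h])

lemma pe_aa [Nonempty Ω] (E : Ω → Finset (Fin n)) (hE : ∀ ω, 0 < (E ω).card) :
    aa (pe E) = Real.log (Fintype.card Ω) := by
  unfold aa H
  have h1 : ∀ w : Ω, im (pe E) Prod.fst w = 1 / (Fintype.card Ω : ℝ) := by
    intro w
    rw [im_eq_sum, Fintype.sum_prod_type]
    have : ∀ w' : Ω, (∑ j, if (w', j).1 = w then pe E (w', j) else 0) =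
        if w' = w then 1 / (Fintype.card Ω : ℝ) else 0 := by
      intro w'
      by_cases h : w' = w
      · simp only [h, if_true]
        exact pe_sum E hE w
      · simp [h]
    rw [Finset.sum_congr rfl fun w' _ => this w', Finset.sum_ite_eq', if_pos (Finset.mem_univ _)]
  simp only [h1]
  rw [← Finset.sum_mul, (pe_law E hE).total, Real.log_div one_ne_zero
    (by exact_mod_cast Fintype.card_ne_zero), Real.log_one]
  ring

lemma pe_lam [Nonempty Ω] (E : Ω → Finset (Fin n)) (hE : ∀ ω, 0 < (E ω).card) {l : ℝ}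
    (hl : 0 < l) (hn : 1 ≤ n) (h : ∀ ω, l * n ≤ ((E ω).card : ℝ)) :
    lam (pe E) ≤ Real.log (1 / l) := by
  have hp := pe_law E hE
  have hn0 : (0 : ℝ) < n := by exact_mod_cast hn
  have hc : (0 : ℝ) < Fintype.card Ω := by exact_mod_cast Fintype.card_pos
  have h1 : aa (pe E) + Real.log (l * n) ≤ H (pe E) id := by
    rw [pe_aa E hE]
    have : ∀ z, pe E z * (Real.log (Fintype.card Ω) + Real.log (l * n)) ≤
        pe E z * -Real.log (im (pe E) id (id z)) := by
      intro z
      have e0 : im (pe E) id (id z) = pe E z := by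
        rw [im_eq_sum, Finset.sum_eq_single_of_mem z (Finset.mem_univ z)]
        · simp
        · intro y _ hy
          exact if_neg hy
      rw [e0]
      by_cases hz : pe E z = 0
      · rw [hz]; simp
      refine mul_le_mul_of_nonneg_left ?_ (hp.nonneg z)
      have hm := pe_supp hz
      have hcE : (0 : ℝ) < (E z.1).card := by exact_mod_cast hE z.1
      unfold pe
      rw [if_pos hm, Real.log_div one_ne_zero (by positivity), Real.log_one,
        Real.log_mul hc.ne' hcE.ne']
      have := Real.log_le_log (by positivity) (h z.1)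
      linarith
    have h2 := Finset.sum_le_sum fun z (_ : z ∈ Finset.univ) => this z
    rw [← Finset.sum_mul, hp.total, one_mul] at h2
    exact h2
  unfold lam
  unfold aa at h1
  rw [Real.log_mul hl.ne' hn0.ne'] at h1
  rw [Real.log_div one_ne_zero hl.ne', Real.log_one]
  linarith

lemma pe_snd [Nonempty Ω] (E : Ω → Finset (Fin n)) (hE : ∀ ω, 0 < (E ω).card) {l : ℝ}
    (hl : 0 < l) (hn : 1 ≤ n) (h : ∀ ω, l * n ≤ ((E ω).card : ℝ)) :
    Real.log (l * n) ≤ H (pe E) Prod.snd := by
  have hp := pe_law E hE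
  have hn0 : (0 : ℝ) < n := by exact_mod_cast hn
  have hc : (0 : ℝ) < Fintype.card Ω := by exact_mod_cast Fintype.card_pos
  have h1 : ∀ j, im (pe E) Prod.snd j ≤ 1 / (l * n) := by
    intro j
    rw [im_eq_sum, Fintype.sum_prod_type]
    have e1 : ∀ w : Ω, pe E (w, j) ≤ 1 / (Fintype.card Ω : ℝ) * (1 / (l * n)) := by
      intro w
      unfold pe
      dsimp only
      split_ifs
      · rw [← one_div_mul_one_div]
        refine mul_le_mul_of_nonneg_left ?_ (by positivity)
        exact one_div_le_one_div_of_le (by positivity) (h w)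
      · positivity
    have e2 : ∑ w : Ω, pe E (w, j) ≤ 1 / (l * n) := by
      refine (Finset.sum_le_sum fun w _ => e1 w).trans (le_of_eq ?_)
      rw [Finset.sum_const, nsmul_eq_mul, Finset.card_univ]
      field_simp
    refine le_trans (le_of_eq ?_) e2
    refine Finset.sum_congr rfl fun w _ => ?_
    rw [Finset.sum_eq_single_of_mem j (Finset.mem_univ j)]
    · simp
    · intro y _ hy
      exact if_neg hy
  have : ∀ z, pe E z * Real.log (l * n) ≤
      pe E z * -Real.log (im (pe E) Prod.snd z.2) := by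
    intro z
    by_cases hz : pe E z = 0
    · rw [hz]; simp
    refine mul_le_mul_of_nonneg_left ?_ (hp.nonneg z)
    have h2 := Real.log_le_log (im_pos hp Prod.snd hz) (h1 z.2)
    rw [Real.log_div one_ne_zero (by positivity), Real.log_one] at h2
    linarith
  have h2 := Finset.sum_le_sum fun z (_ : z ∈ Finset.univ) => this z
  rw [← Finset.sum_mul, hp.total, one_mul] at h2
  exact h2

lemma pe_cell [Nonempty Ω] {d : ℕ} (A D : Ω → Fin d → ℝ) (E : Ω → Finset (Fin n))
    (hE : ∀ ω, 0 < (E ω).card) :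
    H (pe E) (fun z => (z.2, cell A D z.2 z.1)) ≤ Real.log (∑ j : Fin n,
        (((Finset.univ.filter fun ω => j ∈ E ω).image (cell A D j)).card : ℝ)) := by
  have hp := pe_law E hE
  set T : Finset (Fin n × (Fin d → ℤ)) := Finset.univ.biUnion fun j : Fin n =>
    ((Finset.univ.filter fun ω => j ∈ E ω).image (cell A D j)).image fun c => (j, c) with hT
  have hS : ∀ z, pe E z ≠ 0 → (z.2, cell A D z.2 z.1) ∈ T := by
    intro z hz
    have hm := pe_supp hz
    rw [hT, Finset.mem_biUnion]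
    refine ⟨z.2, Finset.mem_univ _, Finset.mem_image_of_mem _ (Finset.mem_image_of_mem _ ?_)⟩
    exact Finset.mem_filter.2 ⟨Finset.mem_univ _, hm⟩
  refine (H_le_log_card hp _ T hS).trans ?_
  have hne : ∃ z, pe E z ≠ 0 := by
    by_contra hcon
    push Not at hcon
    have := hp.total
    simp [hcon] at this
  obtain ⟨z, hz⟩ := hne
  have hpos : (0 : ℝ) < (T.card : ℝ) := by
    exact_mod_cast Finset.card_pos.2 ⟨_, hS z hz⟩
  refine Real.log_le_log hpos ?_
  have h1 : T.card ≤ ∑ j : Fin n, ((Finset.univ.filter fun ω => j ∈ E ω).image (cell A D j)).card := by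
    refine Finset.card_biUnion_le.trans (Finset.sum_le_sum fun j _ => Finset.card_image_le)
  exact_mod_cast h1

end Dense

theorem dense (hB : Pool.Agent.W46.HD.S_BASE) (hS : S_STEP) :
    Pool.Agent.W46.HD.Dense (16752 / 10000) := by
  intro d
  obtain ⟨C, hC, hO⟩ := orc_final hB hS d
  refine ⟨C + 16752 / 10000, by positivity, ?_⟩
  intro n Ω _ _ A D hF E l hl h
  have hn := hF.pos
  have hn0 : (0 : ℝ) < n := by exact_mod_cast hn
  have hE : ∀ ω, 0 < (E ω).card := by
    intro ω
    have h1 := h ω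
    have h2 : 0 < l * n := by positivity
    have h3 : (0 : ℝ) < (E ω).card := lt_of_lt_of_le h2 h1
    exact_mod_cast h3
  have hl1 : l ≤ 1 := by
    obtain ⟨ω⟩ := ‹Nonempty Ω›
    have h1 := h ω
    have h2 : ((E ω).card : ℝ) ≤ n := by
      have := Finset.card_le_univ (E ω)
      simp only [Fintype.card_fin] at this
      exact_mod_cast this
    by_contra hcon
    push Not at hcon
    nlinarith
  have hll : 0 ≤ Real.log (1 / l) := Real.log_nonneg (by rw [le_div_iff₀ hl]; linarith)
  have hp := pe_law E hE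
  have k1 := hO n Ω A D hF (pe E) hp
  rw [pe_aa E hE] at k1
  have k2 := pe_lam E hE hl hn h
  have k3 := pe_snd E hE hl hn h
  have k4 := pe_cell A D E hE
  set S : ℝ := ∑ j : Fin n,
        (((Finset.univ.filter fun ω => j ∈ E ω).image (cell A D j)).card : ℝ) with hSdef
  have hSpos : 0 < S := by
    rw [hSdef]
    obtain ⟨ω⟩ := ‹Nonempty Ω›
    obtain ⟨j, hj⟩ := Finset.card_pos.1 (hE ω)
    refine Finset.sum_pos' (fun j _ => by positivity) ⟨j, Finset.mem_univ _, ?_⟩
    have : 0 < ((Finset.univ.filter fun ω => j ∈ E ω).image (cell A D j)).card :=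
      Finset.card_pos.2 ⟨_, Finset.mem_image_of_mem _
        (Finset.mem_filter.2 ⟨Finset.mem_univ ω, hj⟩)⟩
    exact_mod_cast this
  rw [Real.log_mul hl.ne' hn0.ne'] at k3
  have k5 : hh A D (pe E) ≤ Real.log (S / n) + Real.log (1 / l) := by
    unfold hh
    rw [Real.log_div hSpos.ne' hn0.ne', Real.log_div one_ne_zero hl.ne', Real.log_one]
    linarith
  have k6 : C * (1 + lam (pe E)) ≤ C * (1 + Real.log (1 / l)) :=
    mul_le_mul_of_nonneg_left (by linarith) hC
  linarith

end Pool.Agent.W976.HD
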