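import Pool.Agent.W46.HD.Stm

/-!
# The deficiency of the height controls `psi`
-/

set_option autoImplicit false

open Finset
open scoped Classical

namespace Pool.Agent.W976.HD
open Pool.Agent.W904.AK Pool.Agent.W46.HD

lemma sum_inv_sqrt (N : ℕ) :
    ∑ k ∈ Finset.range N, 1 / Real.sqrt ((k : ℝ) + 1) ≤ 2 * Real.sqrt N := by
  induction N with
  | zero => simp
  | succ N ih =>
    rw [Finset.sum_range_succ]
    push_cast
    have h0 : (0 : ℝ) < (N : ℝ) + 1 := by positivity
    have h1 : 0 < Real.sqrt ((N : ℝ) + 1) := Real.sqrt_pos.2 h0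
    have h2 : 0 ≤ Real.sqrt (N : ℝ) := Real.sqrt_nonneg _
    have h3 : Real.sqrt ((N : ℝ) + 1) ^ 2 = N + 1 := Real.sq_sqrt h0.le
    have h4 : Real.sqrt (N : ℝ) ^ 2 = N := Real.sq_sqrt (by positivity)
    have h5 : 1 / Real.sqrt ((N : ℝ) + 1) ≤ 2 * Real.sqrt ((N : ℝ) + 1) - 2 * Real.sqrt N := by
      rw [div_le_iff₀ h1]
      nlinarith [sq_nonneg (Real.sqrt ((N : ℝ) + 1) - Real.sqrt N)]
    linarith

lemma sum_sqrt_div (n N : ℕ) (hN : N ≤ n) :
    ∑ k ∈ Finset.range N, Real.sqrt ((n : ℝ) / ((k : ℝ) + 1)) ≤ 2 * n := by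
  have h1 : ∀ k ∈ Finset.range N, Real.sqrt ((n : ℝ) / ((k : ℝ) + 1)) =
      Real.sqrt n * (1 / Real.sqrt ((k : ℝ) + 1)) := by
    intro k _
    rw [Real.sqrt_div (by positivity)]
    ring
  rw [Finset.sum_congr rfl h1, ← Finset.mul_sum]
  have h2 := sum_inv_sqrt N
  have h3 : Real.sqrt (N : ℝ) ≤ Real.sqrt n := Real.sqrt_le_sqrt (by exact_mod_cast hN)
  have h4 : Real.sqrt (n : ℝ) ^ 2 = n := Real.sq_sqrt (by positivity)
  have h5 := Real.sqrt_nonneg (n : ℝ)
  nlinarith [mul_le_mul_of_nonneg_left h2 h5, mul_le_mul_of_nonneg_left h3 h5]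

/-- The weight `exp (psi / 2)`. -/
lemma exp_psi (n i j : ℕ) (hn : 1 ≤ n) :
    Real.exp (psi n i j / 2) = Real.sqrt ((n : ℝ) / max 1 |(i : ℝ) - (j : ℝ)|) := by
  have h0 : (0 : ℝ) < (n : ℝ) / max 1 |(i : ℝ) - (j : ℝ)| := by
    have : (0 : ℝ) < n := by exact_mod_cast hn
    positivity
  unfold psi
  rw [← Real.exp_log (Real.sqrt_pos.2 h0), Real.log_sqrt h0.le]

lemma sum_exp_psi (n i : ℕ) (hi : i < n) :
    ∑ j : Fin n, Real.exp (psi n i j / 2) ≤ 5 * n := by
  have hn : 1 ≤ n := by omega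
  rw [Fin.sum_univ_eq_sum_range (fun j => Real.exp (psi n i j / 2)) n]
  obtain ⟨m, rfl⟩ : ∃ m, n = i + 1 + m := ⟨n - (i + 1), by omega⟩
  rw [Finset.sum_range_add]
  set n : ℕ := i + 1 + m with hn'
  have hn1 : (1 : ℝ) ≤ n := by exact_mod_cast hn
  have A : ∑ j ∈ Finset.range (i + 1), Real.exp (psi n i j / 2) ≤ Real.sqrt n + 2 * n := by
    rw [← Finset.sum_range_reflect, Finset.sum_range_succ']
    have e0 : Real.exp (psi n i (i + 1 - 1 - 0) / 2) = Real.sqrt n := by
      rw [exp_psi n i _ hn]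
      simp
    have e1 : ∀ k ∈ Finset.range i, Real.exp (psi n i (i + 1 - 1 - (k + 1)) / 2) =
        Real.sqrt ((n : ℝ) / ((k : ℝ) + 1)) := by
      intro k hk
      rw [Finset.mem_range] at hk
      rw [exp_psi n i _ hn]
      have : ((i + 1 - 1 - (k + 1) : ℕ) : ℝ) = i - (k + 1) := by
        have h : i + 1 - 1 - (k + 1) = i - (k + 1) := by omega
        rw [h, Nat.cast_sub (by omega)]
        push_cast
        ring
      rw [this]
      have h2 : (i : ℝ) - (i - (k + 1)) = k + 1 := by ring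
      rw [h2, abs_of_nonneg (by positivity), max_eq_right (by linarith [(Nat.cast_nonneg k : (0 : ℝ) ≤ k)])]
    rw [e0, Finset.sum_congr rfl e1]
    have := sum_sqrt_div n i (by omega)
    linarith
  have B : ∑ j ∈ Finset.range m, Real.exp (psi n i (i + 1 + j) / 2) ≤ 2 * n := by
    have e1 : ∀ k ∈ Finset.range m, Real.exp (psi n i (i + 1 + k) / 2) =
        Real.sqrt ((n : ℝ) / ((k : ℝ) + 1)) := by
      intro k _
      rw [exp_psi n i _ hn]
      have h2 : (i : ℝ) - ((i + 1 + k : ℕ) : ℝ) = -(k + 1) := by push_cast; ring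
      rw [h2, abs_neg, abs_of_nonneg (by positivity),
        max_eq_right (by linarith [(Nat.cast_nonneg k : (0 : ℝ) ≤ k)])]
    rw [Finset.sum_congr rfl e1]
    exact sum_sqrt_div n m (by omega)
  have C : Real.sqrt (n : ℝ) ≤ n := by
    rw [Real.sqrt_le_left (by positivity)]
    nlinarith
  linarith

lemma im_id {Ω : Type*} [Fintype Ω] (p : Ω → ℝ) (x : Ω) : im p id x = p x := by
  simp [im]

/-- Gibbs' inequality for the identity. -/
lemma gibbs {Θ : Type*} [Fintype Θ] {r : Θ → ℝ} (hr : IsLaw r) (m : Θ → ℝ)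
    (m0 : ∀ z, 0 ≤ m z) (m1 : ∀ z, r z ≠ 0 → 0 < m z) (m2 : ∑ z, m z ≤ 1) :
    H r id ≤ ∑ z, r z * -Real.log (m z) := by
  have key : ∀ z, r z * -Real.log (im r id (id z)) ≤ r z * -Real.log (m z) + (m z - r z) := by
    intro z
    rw [id, im_id]
    by_cases hz : r z = 0
    · rw [hz]
      linarith [m0 z]
    · have h1 : 0 < r z := lt_of_le_of_ne (hr.nonneg z) (Ne.symm hz)
      have h2 := m1 z hz
      have h3 := Real.log_le_sub_one_of_pos (div_pos h2 h1)
      rw [Real.log_div h2.ne' h1.ne'] at h3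
      have h4 := mul_le_mul_of_nonneg_left h3 h1.le
      have h5 : r z * (m z / r z - 1) = m z - r z := by field_simp
      rw [h5] at h4
      linarith
  have h := Finset.sum_le_sum fun z (_ : z ∈ Finset.univ) => key z
  rw [Finset.sum_add_distrib, Finset.sum_sub_distrib, hr.total] at h
  unfold H
  linarith

theorem lam_nonneg {Ω : Type} [Fintype Ω] (n : ℕ) (p : Ω × Fin n → ℝ) (hp : IsLaw p) :
    0 ≤ lam p := by
  unfold lam
  have h1 : H p id ≤ H p Prod.fst + H p Prod.snd :=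
    subadd hp (f := Prod.fst) (g := Prod.snd) (k := id) (fun x y _ _ h => h)
  have h2 : H p (Prod.snd : Ω × Fin n → Fin n) ≤ Real.log n := by
    have := H_le_log_card hp (Prod.snd : Ω × Fin n → Fin n) Finset.univ
      (fun x _ => Finset.mem_univ _)
    simpa using this
  linarith

theorem PSI : S_PSI := by
  intro Ω _ n p hn hp
  refine ⟨lam_nonneg n p hp, ?_⟩
  set r := glue p p Prod.fst Prod.fst with hr
  have hl : IsLaw r := glue_law hp hp (fun _ => rfl)
  have hn0 : (0 : ℝ) < n := by exact_mod_cast hn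
  set m : (Ω × Fin n) × (Ω × Fin n) → ℝ := fun z =>
    if z.1.1 = z.2.1 then p z.1 * (Real.exp (psi n z.1.2 z.2.2 / 2) / (5 * n)) else 0 with hm
  have m0 : ∀ z, 0 ≤ m z := by
    intro z
    simp only [hm]
    split_ifs
    · have := hp.nonneg z.1
      positivity
    · exact le_rfl
  have m1 : ∀ z, r z ≠ 0 → 0 < m z := by
    intro z hz
    obtain ⟨h0, h1, -⟩ := glue_supp hz
    simp only [hm]
    rw [if_pos h0]
    have : 0 < p z.1 := lt_of_le_of_ne (hp.nonneg _) (Ne.symm h1)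
    positivity
  have m2 : ∑ z, m z ≤ 1 := by
    rw [Fintype.sum_prod_type, ← hp.total]
    refine Finset.sum_le_sum fun x _ => ?_
    rw [Fintype.sum_prod_type]
    have e1 : ∀ w : Ω, ∑ j : Fin n, m (x, (w, j)) =
        if x.1 = w then p x * ((∑ j : Fin n, Real.exp (psi n x.2 j / 2)) / (5 * n)) else 0 := by
      intro w
      simp only [hm]
      split_ifs
      · rw [← Finset.mul_sum, ← Finset.sum_div]
      · simp
    rw [Finset.sum_congr rfl fun w _ => e1 w, Finset.sum_ite_eq, if_pos (Finset.mem_univ _)]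
    have h1 := sum_exp_psi n x.2 x.2.2
    have h2 : (∑ j : Fin n, Real.exp (psi n x.2 j / 2)) / (5 * n) ≤ 1 := by
      rw [div_le_one (by positivity)]
      exact h1
    have h3 := mul_le_mul_of_nonneg_left h2 (hp.nonneg x)
    linarith
  have G := gibbs hl m m0 m1 m2
  have e1 : ∀ z, r z * -Real.log (m z) = r z * -Real.log (im p id (id z.1)) +
      (r z * Real.log (5 * n) - (1 / 2) * (r z * psi n z.1.2 z.2.2)) := by
    intro z
    by_cases hz : r z = 0
    · rw [hz]; ring
    obtain ⟨h0, h1, -⟩ := glue_supp hz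
    have h2 : 0 < p z.1 := lt_of_le_of_ne (hp.nonneg _) (Ne.symm h1)
    simp only [hm]
    rw [if_pos h0, Real.log_mul h2.ne' (by positivity), Real.log_div (by positivity) (by positivity),
      Real.log_exp, id, im_id]
    ring
  rw [Finset.sum_congr rfl fun z _ => e1 z, Finset.sum_add_distrib, Finset.sum_sub_distrib,
    ← Finset.sum_mul, hl.total, ← Finset.mul_sum] at G
  have a1 : ∀ F : Ω × Fin n → ℝ, ∑ z, r z * F z.1 = ∑ x, p x * F x := by
    intro F
    have := sum_im_mul r Prod.fst F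
    rw [hr, glue_fst hp (fun _ => rfl)] at this
    exact this.symm
  rw [a1 (fun x => -Real.log (im p id (id x)))] at G
  have a2 : ∑ x, p x * -Real.log (im p id (id x)) = H p id := rfl
  rw [a2] at G
  have a3 : H r id = H p id + H p id - H p Prod.fst :=
    H_glue hp hp (fun _ => rfl) (u := id) (v := id) (fun x y _ _ h => congrArg Prod.fst h)
      (fun x y _ _ h => congrArg Prod.fst h)
  rw [a3, Real.log_mul (by norm_num) hn0.ne'] at G
  have a4 : Real.log 5 ≤ 2 := by
    rw [Real.log_le_iff_le_exp (by norm_num)]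
    have := Real.add_one_le_exp (1 : ℝ)
    have h2 : Real.exp 2 = Real.exp 1 * Real.exp 1 := by rw [← Real.exp_add]; norm_num
    have h3 := Real.exp_one_gt_d9
    nlinarith
  unfold lam
  linarith

end Pool.Agent.W976.HD
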