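import Pool.Agent.W669.HD.Stm

/-!
# D4: the four-dimensional inequality
-/

set_option autoImplicit false

namespace Pool.Agent.W976.HD

open Finset Pool.Agent.W666.GB Pool.Agent.W669.HD

theorem sum_succ {n : ℕ} (f : Equiv.Perm (Fin (n + 1)) → ℝ) :
    ∑ π : Equiv.Perm (Fin (n + 1)), sn π * f π =
      ∑ p : Fin (n + 1), (if p = 0 then (1 : ℝ) else -1) *
        ∑ e : Equiv.Perm (Fin n), sn e * f (Equiv.Perm.decomposeFin.symm (p, e)) := by
  rw [← Equiv.sum_comp Equiv.Perm.decomposeFin.symm, Fintype.sum_prod_type]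
  refine Finset.sum_congr rfl fun p _ => ?_
  rw [Finset.mul_sum]
  refine Finset.sum_congr rfl fun e _ => ?_
  have h : sn (Equiv.Perm.decomposeFin.symm (p, e)) = (if p = 0 then (1 : ℝ) else -1) * sn e := by
    rw [sn, sn, Equiv.Perm.decomposeFin.symm_sign]
    split_ifs <;> simp
  rw [h]
  ring

theorem sum2 (F : Fin 2 → Fin 2 → ℝ) :
    ∑ π : Equiv.Perm (Fin 2), sn π * F (π 0) (π 1) = F 0 1 - F 1 0 := by
  rw [sum_succ (n := 1) fun π => F (π 0) (π 1)]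
  have h : ∀ p : Fin 2, ∑ e : Equiv.Perm (Fin 1), sn e *
      F (Equiv.Perm.decomposeFin.symm (p, e) 0) (Equiv.Perm.decomposeFin.symm (p, e) 1) =
      F p (Equiv.swap 0 p 1) := by
    intro p
    rw [Fintype.sum_unique]
    have h1 : (1 : Fin 2) = Fin.succ 0 := rfl
    rw [Equiv.Perm.decomposeFin_symm_apply_zero]
    conv_lhs => rw [h1, Equiv.Perm.decomposeFin_symm_apply_succ]
    simp [sn]
  simp only [h]
  refine (Fin.sum_univ_two _).trans ?_
  have h2 : (Equiv.swap (0 : Fin 2) 0) 1 = 1 := by decide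
  have h3 : (Equiv.swap (0 : Fin 2) 1) 1 = 0 := by decide
  simp only [h2, h3]
  simp
  ring

theorem sum3 (F : Fin 3 → Fin 3 → Fin 3 → ℝ) :
    ∑ π : Equiv.Perm (Fin 3), sn π * F (π 0) (π 1) (π 2) =
      F 0 1 2 - F 0 2 1 - F 1 0 2 + F 1 2 0 + F 2 0 1 - F 2 1 0 := by
  rw [sum_succ (n := 2) fun π => F (π 0) (π 1) (π 2)]
  have h : ∀ p : Fin 3, ∑ e : Equiv.Perm (Fin 2), sn e *
      F (Equiv.Perm.decomposeFin.symm (p, e) 0) (Equiv.Perm.decomposeFin.symm (p, e) 1)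
        (Equiv.Perm.decomposeFin.symm (p, e) 2) =
      F p (Equiv.swap 0 p 1) (Equiv.swap 0 p 2) - F p (Equiv.swap 0 p 2) (Equiv.swap 0 p 1) := by
    intro p
    refine Eq.trans ?_ (sum2 fun a b => F p (Equiv.swap 0 p a.succ) (Equiv.swap 0 p b.succ))
    refine Finset.sum_congr rfl fun e _ => ?_
    have h1 : (1 : Fin 3) = Fin.succ 0 := rfl
    have h2 : (2 : Fin 3) = Fin.succ 1 := rfl
    rw [Equiv.Perm.decomposeFin_symm_apply_zero, h1, h2, Equiv.Perm.decomposeFin_symm_apply_succ,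
      Equiv.Perm.decomposeFin_symm_apply_succ]
  simp only [h]
  refine (Fin.sum_univ_three _).trans ?_
  have h2 : (Equiv.swap (0 : Fin 3) 0) 1 = 1 := by decide
  have h3 : (Equiv.swap (0 : Fin 3) 0) 2 = 2 := by decide
  have h4 : (Equiv.swap (0 : Fin 3) 1) 1 = 0 := by decide
  have h5 : (Equiv.swap (0 : Fin 3) 1) 2 = 2 := by decide
  have h6 : (Equiv.swap (0 : Fin 3) 2) 1 = 1 := by decide
  have h7 : (Equiv.swap (0 : Fin 3) 2) 2 = 0 := by decide
  have n1 : (1 : Fin 3) ≠ 0 := by decide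
  have n2 : (2 : Fin 3) ≠ 0 := by decide
  simp only [h2, h3, h4, h5, h6, h7, n1, n2, if_true, if_false]
  ring

theorem sum4 (F : Fin 4 → Fin 4 → Fin 4 → Fin 4 → ℝ) :
    ∑ π : Equiv.Perm (Fin 4), sn π * F (π 0) (π 1) (π 2) (π 3) =
      (F 0 1 2 3 - F 0 1 3 2 - F 0 2 1 3 + F 0 2 3 1 + F 0 3 1 2 - F 0 3 2 1) -
      (F 1 0 2 3 - F 1 0 3 2 - F 1 2 0 3 + F 1 2 3 0 + F 1 3 0 2 - F 1 3 2 0) -
      (F 2 1 0 3 - F 2 1 3 0 - F 2 0 1 3 + F 2 0 3 1 + F 2 3 1 0 - F 2 3 0 1) -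
      (F 3 1 2 0 - F 3 1 0 2 - F 3 2 1 0 + F 3 2 0 1 + F 3 0 1 2 - F 3 0 2 1) := by
  rw [sum_succ (n := 3) fun π => F (π 0) (π 1) (π 2) (π 3)]
  have h : ∀ p : Fin 4, ∑ e : Equiv.Perm (Fin 3), sn e *
      F (Equiv.Perm.decomposeFin.symm (p, e) 0) (Equiv.Perm.decomposeFin.symm (p, e) 1)
        (Equiv.Perm.decomposeFin.symm (p, e) 2) (Equiv.Perm.decomposeFin.symm (p, e) 3) =
      ∑ e : Equiv.Perm (Fin 3), sn e * F p (Equiv.swap 0 p (e 0).succ)
        (Equiv.swap 0 p (e 1).succ) (Equiv.swap 0 p (e 2).succ) := by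
    intro p
    refine Finset.sum_congr rfl fun e _ => ?_
    have h1 : (1 : Fin 4) = Fin.succ 0 := rfl
    have h2 : (2 : Fin 4) = Fin.succ 1 := rfl
    have h3 : (3 : Fin 4) = Fin.succ 2 := rfl
    rw [Equiv.Perm.decomposeFin_symm_apply_zero, h1, h2, h3,
      Equiv.Perm.decomposeFin_symm_apply_succ, Equiv.Perm.decomposeFin_symm_apply_succ,
      Equiv.Perm.decomposeFin_symm_apply_succ]
  simp only [h]
  have h' : ∀ p : Fin 4, ∑ e : Equiv.Perm (Fin 3), sn e * F p (Equiv.swap 0 p (e 0).succ)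
        (Equiv.swap 0 p (e 1).succ) (Equiv.swap 0 p (e 2).succ) = _ := fun p =>
    sum3 fun a b c => F p (Equiv.swap 0 p a.succ) (Equiv.swap 0 p b.succ) (Equiv.swap 0 p c.succ)
  simp only [h']
  refine (Fin.sum_univ_four _).trans ?_
  have g1 : Fin.succ (0 : Fin 3) = 1 := rfl
  have g2 : Fin.succ (1 : Fin 3) = 2 := rfl
  have g3 : Fin.succ (2 : Fin 3) = 3 := rfl
  have e1 : (Equiv.swap (0 : Fin 4) 0) 1 = 1 := by decide
  have e2 : (Equiv.swap (0 : Fin 4) 0) 2 = 2 := by decide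
  have e3 : (Equiv.swap (0 : Fin 4) 0) 3 = 3 := by decide
  have e4 : (Equiv.swap (0 : Fin 4) 1) 1 = 0 := by decide
  have e5 : (Equiv.swap (0 : Fin 4) 1) 2 = 2 := by decide
  have e6 : (Equiv.swap (0 : Fin 4) 1) 3 = 3 := by decide
  have e7 : (Equiv.swap (0 : Fin 4) 2) 1 = 1 := by decide
  have e8 : (Equiv.swap (0 : Fin 4) 2) 2 = 0 := by decide
  have e9 : (Equiv.swap (0 : Fin 4) 2) 3 = 3 := by decide
  have e10 : (Equiv.swap (0 : Fin 4) 3) 1 = 1 := by decide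
  have e11 : (Equiv.swap (0 : Fin 4) 3) 2 = 2 := by decide
  have e12 : (Equiv.swap (0 : Fin 4) 3) 3 = 0 := by decide
  simp only [g1, g2, g3, e1, e2, e3, e4, e5, e6, e7, e8, e9, e10, e11, e12]
  have n1 : (1 : Fin 4) ≠ 0 := by decide
  have n2 : (2 : Fin 4) ≠ 0 := by decide
  have n3 : (3 : Fin 4) ≠ 0 := by decide
  simp only [n1, n2, n3, if_true, if_false]
  ring

/-- the star pairing -/
def sp {R : Type} [CommRing R] (x y : Fin 4 → Fin 4 → R) : R :=
  x 0 1 * y 2 3 - x 0 2 * y 1 3 + x 0 3 * y 1 2 + x 1 2 * y 0 3 - x 1 3 * y 0 2 + x 2 3 * y 0 1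

/-- the alternating sum -/
def A4 {R : Type} [CommRing R] (F : Fin 4 → Fin 4 → Fin 4 → Fin 4 → R) : R :=
      (F 0 1 2 3 - F 0 1 3 2 - F 0 2 1 3 + F 0 2 3 1 + F 0 3 1 2 - F 0 3 2 1) -
      (F 1 0 2 3 - F 1 0 3 2 - F 1 2 0 3 + F 1 2 3 0 + F 1 3 0 2 - F 1 3 2 0) -
      (F 2 1 0 3 - F 2 1 3 0 - F 2 0 1 3 + F 2 0 3 1 + F 2 3 1 0 - F 2 3 0 1) -
      (F 3 1 2 0 - F 3 1 0 2 - F 3 2 1 0 + F 3 2 0 1 + F 3 0 1 2 - F 3 0 2 1)

theorem sum4_anti (x y : Fin 4 → Fin 4 → ℝ) (hx : ∀ i j, x j i = - x i j)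
    (hy : ∀ i j, y j i = - y i j) :
    ∑ π : Equiv.Perm (Fin 4), sn π * (x (π 0) (π 1) * y (π 2) (π 3)) = 4 * sp x y := by
  rw [sum4 fun i j k l => x i j * y k l, sp]
  rw [hx 0 1, hx 0 2, hx 0 3, hx 1 2, hx 1 3, hx 2 3, hy 0 1, hy 0 2, hy 0 3, hy 1 2, hy 1 3,
    hy 2 3]
  ring

theorem sum4' (F : Fin 4 → Fin 4 → Fin 4 → Fin 4 → ℝ) :
    ∑ π : Equiv.Perm (Fin 4), sn π * F (π 0) (π 1) (π 2) (π 3) = A4 F := sum4 F

/-- the product of the matrix entries in the determinant -/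
def ind (i j k l a b c d : Fin 4) : ℤ :=
  (if ![i, j, k, l] a = 0 then 1 else 0) * (if ![i, j, k, l] b = 1 then 1 else 0) *
    (if ![i, j, k, l] c = 2 then 1 else 0) * (if ![i, j, k, l] d = 3 then 1 else 0)

/-- the integer valued Levi-Civita symbol -/
def epsZ (i j k l : Fin 4) : ℤ :=
  ((j : ℤ) - i) * ((k : ℤ) - i) * ((l : ℤ) - i) * ((k : ℤ) - j) * ((l : ℤ) - j) *
    ((l : ℤ) - k) / 12

theorem epsZ_eq : ∀ i j k l : Fin 4, A4 (ind i j k l) = epsZ i j k l := by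
  decide +kernel

theorem epsZ_anti : ∀ i j k l : Fin 4, epsZ i j l k = - epsZ i j k l := by
  decide +kernel

theorem epsZ_sum : A4 epsZ = 24 := by
  decide +kernel

theorem epsZ_kap : A4 (fun a b c d => sp (epsZ a b) (epsZ c d)) = 24 := by
  decide +kernel

theorem eps_cast (i j k l : Fin 4) : eps i j k l = ((epsZ i j k l : ℤ) : ℝ) := by
  rw [← epsZ_eq]
  have h : ((A4 (ind i j k l) : ℤ) : ℝ) = A4 fun a b c d => ((ind i j k l a b c d : ℤ) : ℝ) := by
    simp only [A4]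
    push_cast
    rfl
  rw [h, ← sum4', eps, Matrix.det_apply']
  refine Finset.sum_congr rfl fun σ _ => ?_
  rw [Fin.prod_univ_four]
  simp only [Matrix.of_apply, ind]
  push_cast
  rfl

theorem bet_eps (t : ℝ) : bet (fun i j k l => t * eps i j k l) = 24 * t := by
  rw [bet, sum4' fun i j k l => t * eps i j k l]
  have h : ((A4 epsZ : ℤ) : ℝ) = 24 := by
    rw [epsZ_sum]
    norm_num
  have h2 : A4 (fun i j k l => t * eps i j k l) = t * ((A4 epsZ : ℤ) : ℝ) := by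
    simp only [A4, eps_cast]
    push_cast
    ring
  rw [h2, h]
  ring

theorem kap_eps (t : ℝ) : kap (fun i j k l => t * eps i j k l) = 96 * t ^ 2 := by
  have h0 : ∀ π : Equiv.Perm (Fin 4), ∑ π' : Equiv.Perm (Fin 4), sn π * sn π' *
      (t * eps (π 0) (π 1) (π' 0) (π' 1) * (t * eps (π 2) (π 3) (π' 2) (π' 3))) =
      sn π * (4 * t ^ 2 * sp (eps (π 0) (π 1)) (eps (π 2) (π 3))) := by
    intro π
    have h1 := sum4_anti (eps (π 0) (π 1)) (eps (π 2) (π 3))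
      (fun i j => by rw [eps_cast, eps_cast, epsZ_anti]; push_cast; rfl)
      (fun i j => by rw [eps_cast, eps_cast, epsZ_anti]; push_cast; rfl)
    calc _ = sn π * (t ^ 2 * ∑ π' : Equiv.Perm (Fin 4), sn π' *
        (eps (π 0) (π 1) (π' 0) (π' 1) * eps (π 2) (π 3) (π' 2) (π' 3))) := by
          rw [Finset.mul_sum, Finset.mul_sum]
          refine Finset.sum_congr rfl fun π' _ => ?_
          ring
      _ = _ := by
          rw [h1]
          ring
  rw [kap]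
  simp only [h0]
  rw [sum4' fun a b c d => 4 * t ^ 2 * sp (eps a b) (eps c d)]
  have h : ((A4 (fun a b c d => sp (epsZ a b) (epsZ c d)) : ℤ) : ℝ) = 24 := by
    rw [epsZ_kap]
    norm_num
  have h2 : A4 (fun a b c d => 4 * t ^ 2 * sp (eps a b) (eps c d)) =
      4 * t ^ 2 * ((A4 (fun a b c d => sp (epsZ a b) (epsZ c d)) : ℤ) : ℝ) := by
    have h3 : ∀ a b c d, sp (eps a b) (eps c d) = ((sp (epsZ a b) (epsZ c d) : ℤ) : ℝ) := by
      intro a b c d
      simp only [sp, eps_cast]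
      push_cast
      rfl
    simp only [h3, A4]
    push_cast
    ring
  rw [h2, h]
  ring

theorem gram {n j : ℕ} (e : Fin n → ℝ) (r : Fin j → Fin n → ℝ) :
    ∑ i, (∑ a, e a * r i a) ^ 2 = ∑ a, ∑ b, e a * (e b * ∑ i, r i a * r i b) := by
  have h : ∀ i, (∑ a, e a * r i a) ^ 2 = ∑ a, ∑ b, e a * (e b * (r i a * r i b)) := by
    intro i
    rw [sq, Finset.sum_mul_sum]
    refine Finset.sum_congr rfl fun a _ => Finset.sum_congr rfl fun b _ => ?_
    ring
  simp only [h, Finset.mul_sum]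
  rw [Finset.sum_comm]
  refine Finset.sum_congr rfl fun a _ => ?_
  rw [Finset.sum_comm]

/-- the difference of two Gram matrices of families of vectors in three dimensional space -/
theorem key {n m : ℕ} (p : Fin 3 → EuclideanSpace ℝ (Fin n)) (q : Fin m → EuclideanSpace ℝ (Fin n))
    (G : Fin n → Fin n → ℝ) (hG : ∀ a b, G a b = ∑ i, p i a * p i b - ∑ i, q i a * q i b)
    (h0 : 0 ≤ ∑ a, G a a) : (∑ a, G a a) ^ 2 ≤ 3 * ∑ a, ∑ b, G a b ^ 2 := by
  classical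
  set U : Submodule ℝ (EuclideanSpace ℝ (Fin n)) := Submodule.span ℝ (Set.range p) with hU
  have hd : Module.finrank ℝ U ≤ 3 := by
    have h : Set.finrank ℝ (Set.range p) ≤ Fintype.card (Fin 3) := finrank_range_le_card p
    rw [Fintype.card_fin] at h
    exact h
  set e := stdOrthonormalBasis ℝ U with he
  have ho : Orthonormal ℝ fun k => (e k : EuclideanSpace ℝ (Fin n)) :=
    e.orthonormal.comp_linearIsometry U.subtypeₗᵢ
  -- Bessel
  have hB : ∀ x : EuclideanSpace ℝ (Fin n),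
      ∑ k, (∑ a, (e k : EuclideanSpace ℝ (Fin n)) a * x a) ^ 2 ≤ ∑ a, x a ^ 2 := by
    intro x
    have h1 := ho.sum_inner_products_le x (s := Finset.univ)
    rw [EuclideanSpace.norm_sq_eq] at h1
    simpa [PiLp.inner_apply, mul_comm] using h1
  -- Parseval
  have hP : ∀ x ∈ U, ∑ k, (∑ a, (e k : EuclideanSpace ℝ (Fin n)) a * x a) ^ 2 = ∑ a, x a ^ 2 := by
    intro x hx
    have h1 := e.sum_sq_norm_inner_right ⟨x, hx⟩
    have h2 : ‖(⟨x, hx⟩ : U)‖ ^ 2 = ∑ a, x a ^ 2 := by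
      rw [Submodule.coe_norm, EuclideanSpace.norm_sq_eq]
      simp
    rw [h2] at h1
    simpa [PiLp.inner_apply, mul_comm] using h1
  have hpU : ∀ i, p i ∈ U := fun i => Submodule.subset_span ⟨i, rfl⟩
  -- the quadratic form at `e k`
  have hS : ∀ k, ∑ a, ∑ b, (e k : EuclideanSpace ℝ (Fin n)) a *
      ((e k : EuclideanSpace ℝ (Fin n)) b * G a b) =
      ∑ i, (∑ a, (e k : EuclideanSpace ℝ (Fin n)) a * p i a) ^ 2 -
        ∑ i, (∑ a, (e k : EuclideanSpace ℝ (Fin n)) a * q i a) ^ 2 := by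
    intro k
    rw [gram _ fun i => (p i).ofLp, gram _ fun i => (q i).ofLp, ← Finset.sum_sub_distrib]
    refine Finset.sum_congr rfl fun a _ => ?_
    rw [← Finset.sum_sub_distrib]
    refine Finset.sum_congr rfl fun b _ => ?_
    rw [hG]
    ring
  have hT : ∑ a, G a a = ∑ i, ∑ a, p i a ^ 2 - ∑ i, ∑ a, q i a ^ 2 := by
    rw [Finset.sum_comm, Finset.sum_comm (s := (univ : Finset (Fin m))), ← Finset.sum_sub_distrib]
    refine Finset.sum_congr rfl fun a _ => ?_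
    rw [hG]
    simp only [sq]
  set S : Fin (Module.finrank ℝ U) → ℝ := fun k => ∑ a, ∑ b,
    (e k : EuclideanSpace ℝ (Fin n)) a * ((e k : EuclideanSpace ℝ (Fin n)) b * G a b) with hSdef
  have h1 : ∑ a, G a a ≤ ∑ k, S k := by
    rw [hT]
    have h2 : ∑ k, S k = ∑ i, ∑ k, (∑ a, (e k : EuclideanSpace ℝ (Fin n)) a * p i a) ^ 2 -
        ∑ i, ∑ k, (∑ a, (e k : EuclideanSpace ℝ (Fin n)) a * q i a) ^ 2 := by
      refine (Finset.sum_congr rfl fun k _ => hS k).trans ?_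
      rw [Finset.sum_sub_distrib]
      congr 1 <;> exact Finset.sum_comm
    rw [h2]
    have h3 : ∑ i, ∑ k, (∑ a, (e k : EuclideanSpace ℝ (Fin n)) a * p i a) ^ 2 =
        ∑ i, ∑ a, p i a ^ 2 := Finset.sum_congr rfl fun i _ => hP _ (hpU i)
    have h4 : ∑ i, ∑ k, (∑ a, (e k : EuclideanSpace ℝ (Fin n)) a * q i a) ^ 2 ≤
        ∑ i, ∑ a, q i a ^ 2 := Finset.sum_le_sum fun i _ => hB _
    linarith
  have h2 : (∑ k, S k) ^ 2 ≤ 3 * ∑ k, S k ^ 2 := by
    have h3 := sq_sum_le_card_mul_sum_sq (s := (univ : Finset (Fin (Module.finrank ℝ U)))) (f := S)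
    rw [Finset.card_univ, Fintype.card_fin] at h3
    have h4 : (0 : ℝ) ≤ ∑ k, S k ^ 2 := Finset.sum_nonneg fun _ _ => sq_nonneg _
    have h5 : ((Module.finrank ℝ U : ℕ) : ℝ) ≤ 3 := by exact_mod_cast hd
    nlinarith
  have h3 : ∀ k, S k ^ 2 ≤ ∑ a, (∑ b, (e k : EuclideanSpace ℝ (Fin n)) b * G a b) ^ 2 := by
    intro k
    have h4 : S k = ∑ a, (e k : EuclideanSpace ℝ (Fin n)) a *
        ∑ b, (e k : EuclideanSpace ℝ (Fin n)) b * G a b := by
      simp only [hSdef, Finset.mul_sum]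
    have h5 : ∑ a, (e k : EuclideanSpace ℝ (Fin n)) a ^ 2 = 1 := by
      have h6 := ho.1 k
      have h7 := EuclideanSpace.norm_sq_eq (e k : EuclideanSpace ℝ (Fin n))
      rw [h6] at h7
      simpa using h7.symm
    rw [h4]
    refine (Finset.sum_mul_sq_le_sq_mul_sq _ _ _).trans ?_
    rw [h5, one_mul]
  have h4 : ∑ k, S k ^ 2 ≤ ∑ a, ∑ b, G a b ^ 2 := by
    refine (Finset.sum_le_sum fun k _ => h3 k).trans ?_
    rw [Finset.sum_comm]
    refine Finset.sum_le_sum fun a _ => ?_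
    exact hB (WithLp.toLp 2 (G a))
  have h5 : (∑ a, G a a) ^ 2 ≤ (∑ k, S k) ^ 2 := by
    have := h0.trans h1
    nlinarith
  linarith

theorem tr_le {n : ℕ} (ν : Fin n → Fin 4 → Fin 4 → ℝ) :
    (∑ a, sp (ν a) (ν a)) ^ 2 ≤ 3 * ∑ a, ∑ b, sp (ν a) (ν b) ^ 2 := by
  set p : Fin 3 → EuclideanSpace ℝ (Fin n) := fun i => WithLp.toLp 2 fun a =>
    ![ν a 0 1 + ν a 2 3, ν a 0 2 - ν a 1 3, ν a 0 3 + ν a 1 2] i with hp
  set q : Fin 3 → EuclideanSpace ℝ (Fin n) := fun i => WithLp.toLp 2 fun a =>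
    ![ν a 0 1 - ν a 2 3, ν a 0 2 + ν a 1 3, ν a 0 3 - ν a 1 2] i with hq
  have hG : ∀ a b, 2 * sp (ν a) (ν b) = ∑ i, p i a * p i b - ∑ i, q i a * q i b := by
    intro a b
    simp only [hp, hq, Fin.sum_univ_three, sp]
    simp
    ring
  rcases le_total 0 (∑ a, 2 * sp (ν a) (ν a)) with h0 | h0
  · have h1 := key p q (fun a b => 2 * sp (ν a) (ν b)) hG h0
    simp only [mul_pow] at h1
    rw [← Finset.mul_sum, mul_pow] at h1
    simp only [← Finset.mul_sum] at h1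
    linarith
  · have h1 := key q p (fun a b => - (2 * sp (ν a) (ν b))) (fun a b => by
      rw [hG]
      ring) (by
      rw [Finset.sum_neg_distrib]
      linarith)
    rw [Finset.sum_neg_distrib, neg_sq] at h1
    simp only [neg_sq, mul_pow] at h1
    rw [← Finset.mul_sum, mul_pow] at h1
    simp only [← Finset.mul_sum] at h1
    linarith

theorem d4 : S_D4 := by
  refine ⟨fun n ν hν => ?_, fun t => ?_⟩
  · have hb : bet (fun i j k l => ∑ a, ν a i j * ν a k l) = 4 * ∑ a, sp (ν a) (ν a) := by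
      rw [bet]
      simp only [Finset.mul_sum]
      rw [Finset.sum_comm]
      refine Finset.sum_congr rfl fun a _ => ?_
      exact sum4_anti (ν a) (ν a) (hν a) (hν a)
    have hk : kap (fun i j k l => ∑ a, ν a i j * ν a k l) =
        16 * ∑ a, ∑ b, sp (ν a) (ν b) ^ 2 := by
      rw [kap]
      have h1 : ∀ π π' : Equiv.Perm (Fin 4), sn π * sn π' *
          ((∑ a, ν a (π 0) (π 1) * ν a (π' 0) (π' 1)) *
            (∑ a, ν a (π 2) (π 3) * ν a (π' 2) (π' 3))) =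
          ∑ a, ∑ b, (sn π * (ν a (π 0) (π 1) * ν b (π 2) (π 3))) *
            (sn π' * (ν a (π' 0) (π' 1) * ν b (π' 2) (π' 3))) := by
        intro π π'
        rw [Finset.sum_mul_sum, Finset.mul_sum]
        refine Finset.sum_congr rfl fun a _ => ?_
        rw [Finset.mul_sum]
        refine Finset.sum_congr rfl fun b _ => ?_
        ring
      simp only [h1]
      have h2 : ∀ a b, ∑ π : Equiv.Perm (Fin 4), ∑ π' : Equiv.Perm (Fin 4),
          (sn π * (ν a (π 0) (π 1) * ν b (π 2) (π 3))) *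
            (sn π' * (ν a (π' 0) (π' 1) * ν b (π' 2) (π' 3))) = 16 * sp (ν a) (ν b) ^ 2 := by
        intro a b
        rw [← Finset.sum_mul_sum, sum4_anti (ν a) (ν b) (hν a) (hν b)]
        ring
      calc _ = ∑ a, ∑ b, ∑ π : Equiv.Perm (Fin 4), ∑ π' : Equiv.Perm (Fin 4),
          (sn π * (ν a (π 0) (π 1) * ν b (π 2) (π 3))) *
            (sn π' * (ν a (π' 0) (π' 1) * ν b (π' 2) (π' 3))) := by
            rw [Finset.sum_congr rfl fun π _ => Finset.sum_comm, Finset.sum_comm]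
            refine Finset.sum_congr rfl fun a _ => ?_
            rw [Finset.sum_congr rfl fun π _ => Finset.sum_comm, Finset.sum_comm]
        _ = ∑ a, ∑ b, 16 * sp (ν a) (ν b) ^ 2 :=
            Finset.sum_congr rfl fun a _ => Finset.sum_congr rfl fun b _ => h2 a b
        _ = _ := by
            simp only [← Finset.mul_sum]
    rw [hb, hk, mul_pow]
    have := tr_le ν
    linarith
  · rw [kap_eps, bet_eps]
    ring

end Pool.Agent.W976.HD
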